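import Pool.Agent.H97.R3.Defs

/-!
# Generators with at most three elements (MP_75f39d): the values of the pairs
-/

set_option autoImplicit false

namespace Pool.Agent.H97.R3

open Finset Pool.Agent.H97.GEN Pool.Agent.H83.ELZ

variable {α : Type*} [DecidableEq α]

section

variable {J : Finset (Finset α)} {B w : Finset α}

/-- The traces are closed under unions. -/
lemma tr_union {T T' : Finset α} (h : (B \ w) ∪ T ∈ unions J) (h' : (B \ w) ∪ T' ∈ unions J)
    {U : Finset α} (hU : T ∪ T' = U) : (B \ w) ∪ U ∈ unions J := by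
  have := union_mem h h'
  have he : (B \ w) ∪ T ∪ ((B \ w) ∪ T') = (B \ w) ∪ U := by
    rw [← hU]
    ext z
    simp only [Finset.mem_union]
    tauto
  rw [he] at this
  exact this

lemma tr_top (hB : B ∈ unions J) (hw : w ⊆ B) : (B \ w) ∪ w ∈ unions J := by
  rw [Finset.sdiff_union_of_subset hw]
  exact hB

/-- Values for one point. -/
lemma bb_one {x : α} (hB : B ∈ unions J) (hw : ({x} : Finset α) ⊆ B) :
    bb J B {x} = 1 - (if (B \ {x}) ∪ ∅ ∈ unions J then 1 else 0) := by
  unfold bb
  rw [sum_pow1, if_pos (tr_top hB hw)]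
  simp only [Finset.card_empty, Finset.card_singleton]
  split_ifs <;> norm_num

/-- Values for two points. -/
lemma bb_two {x y : α} (hxy : x ≠ y) (hB : B ∈ unions J) (hw : ({x, y} : Finset α) ⊆ B) :
    bb J B {x, y} = 2 - 2 * (if (B \ {x, y}) ∪ ∅ ∈ unions J then 1 else 0) := by
  unfold bb
  rw [sum_pow2 hxy, if_pos (tr_top hB hw)]
  simp only [Finset.card_empty, Finset.card_singleton, Finset.card_pair hxy]
  split_ifs <;> norm_num

/-- Values for three points. -/
lemma bb_three {x y z : α} (hxy : x ≠ y) (hxz : x ≠ z) (hyz : y ≠ z) (hB : B ∈ unions J)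
    (hw : ({x, y, z} : Finset α) ⊆ B) :
    bb J B {x, y, z} = 3 - 3 * (if (B \ {x, y, z}) ∪ ∅ ∈ unions J then 1 else 0)
      - (if (B \ {x, y, z}) ∪ {x} ∈ unions J then 1 else 0)
      - (if (B \ {x, y, z}) ∪ {y} ∈ unions J then 1 else 0)
      - (if (B \ {x, y, z}) ∪ {z} ∈ unions J then 1 else 0)
      + (if (B \ {x, y, z}) ∪ {x, y} ∈ unions J then 1 else 0)
      + (if (B \ {x, y, z}) ∪ {x, z} ∈ unions J then 1 else 0)
      + (if (B \ {x, y, z}) ∪ {y, z} ∈ unions J then 1 else 0) := by
  have h3 : ({x, y, z} : Finset α).card = 3 := Finset.card_eq_three.2 ⟨x, y, z, hxy, hxz, hyz, rfl⟩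
  unfold bb
  rw [sum_pow3 hxy hxz hyz, if_pos (tr_top hB hw)]
  simp only [Finset.card_empty, Finset.card_singleton, Finset.card_pair hxy,
    Finset.card_pair hxz, Finset.card_pair hyz, h3]
  split_ifs <;> norm_num

lemma card_cases (hne : w.Nonempty) (h3 : w.card ≤ 3) :
    w.card = 1 ∨ w.card = 2 ∨ w.card = 3 := by
  have := hne.card_pos
  omega

/-- A lower bound. -/
lemma bb_ge (hB : B ∈ unions J) (hw : w ⊆ B) (hne : w.Nonempty) (h3 : w.card ≤ 3) :
    -1 ≤ bb J B w := by
  rcases card_cases hne h3 with h | h | h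
  · obtain ⟨x, rfl⟩ := Finset.card_eq_one.1 h
    rw [bb_one hB hw]
    split_ifs <;> norm_num
  · obtain ⟨x, y, hxy, rfl⟩ := Finset.card_eq_two.1 h
    rw [bb_two hxy hB hw]
    split_ifs <;> norm_num
  · obtain ⟨x, y, z, hxy, hxz, hyz, rfl⟩ := Finset.card_eq_three.1 h
    rw [bb_three hxy hxz hyz hB hw]
    have c1 : (B \ {x, y, z}) ∪ {x} ∈ unions J → (B \ {x, y, z}) ∪ {y} ∈ unions J →
        (B \ {x, y, z}) ∪ {x, y} ∈ unions J := fun h h' => tr_union h h' rfl
    have c2 : (B \ {x, y, z}) ∪ {x} ∈ unions J → (B \ {x, y, z}) ∪ {z} ∈ unions J →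
        (B \ {x, y, z}) ∪ {x, z} ∈ unions J := fun h h' => tr_union h h' rfl
    have c3 : (B \ {x, y, z}) ∪ {y} ∈ unions J → (B \ {x, y, z}) ∪ {z} ∈ unions J →
        (B \ {x, y, z}) ∪ {y, z} ∈ unions J := fun h h' => tr_union h h' rfl
    by_cases hx : (B \ {x, y, z}) ∪ {x} ∈ unions J <;>
      by_cases hy : (B \ {x, y, z}) ∪ {y} ∈ unions J <;>
      by_cases hz : (B \ {x, y, z}) ∪ {z} ∈ unions J <;>
      simp only [hx, hy, hz, if_true, if_false, true_imp_iff, false_imp_iff, forall_const] at * <;>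
      split_ifs <;> first | norm_num | (exfalso; tauto)

/-- No empty trace: the value is positive. -/
lemma bb_pos (hB : B ∈ unions J) (hw : w ⊆ B) (hne : w.Nonempty) (h3 : w.card ≤ 3)
    (h0 : B \ w ∉ unions J) : 0 < bb J B w := by
  rcases card_cases hne h3 with h | h | h
  · obtain ⟨x, rfl⟩ := Finset.card_eq_one.1 h
    rw [bb_one hB hw, Finset.union_empty, if_neg h0]
    norm_num
  · obtain ⟨x, y, hxy, rfl⟩ := Finset.card_eq_two.1 h
    rw [bb_two hxy hB hw, Finset.union_empty, if_neg h0]
    norm_num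
  · obtain ⟨x, y, z, hxy, hxz, hyz, rfl⟩ := Finset.card_eq_three.1 h
    rw [bb_three hxy hxz hyz hB hw, Finset.union_empty, if_neg h0]
    have c1 : (B \ {x, y, z}) ∪ {x} ∈ unions J → (B \ {x, y, z}) ∪ {y} ∈ unions J →
        (B \ {x, y, z}) ∪ {x, y} ∈ unions J := fun h h' => tr_union h h' rfl
    have c2 : (B \ {x, y, z}) ∪ {x} ∈ unions J → (B \ {x, y, z}) ∪ {z} ∈ unions J →
        (B \ {x, y, z}) ∪ {x, z} ∈ unions J := fun h h' => tr_union h h' rfl
    have c3 : (B \ {x, y, z}) ∪ {y} ∈ unions J → (B \ {x, y, z}) ∪ {z} ∈ unions J →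
        (B \ {x, y, z}) ∪ {y, z} ∈ unions J := fun h h' => tr_union h h' rfl
    by_cases hx : (B \ {x, y, z}) ∪ {x} ∈ unions J <;>
      by_cases hy : (B \ {x, y, z}) ∪ {y} ∈ unions J <;>
      by_cases hz : (B \ {x, y, z}) ∪ {z} ∈ unions J <;>
      simp only [hx, hy, hz, if_true, if_false, true_imp_iff, false_imp_iff, forall_const] at * <;>
      split_ifs <;> first | norm_num | (exfalso; tauto)

/-- At most two points: the value is not negative, and zero only if the empty trace is there. -/
lemma bb_small (hB : B ∈ unions J) (hw : w ⊆ B) (hne : w.Nonempty) (h2 : w.card ≤ 2) :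
    0 ≤ bb J B w := by
  rcases card_cases hne (by omega) with h | h | h
  · obtain ⟨x, rfl⟩ := Finset.card_eq_one.1 h
    rw [bb_one hB hw]
    split_ifs <;> norm_num
  · obtain ⟨x, y, hxy, rfl⟩ := Finset.card_eq_two.1 h
    rw [bb_two hxy hB hw]
    split_ifs <;> norm_num
  · omega

/-- Forced points are paid for. -/
lemma bb_forced (hB : B ∈ unions J) (hw : w ⊆ B) (h3 : w.card ≤ 3)
    (hF : (Fo J B w).Nonempty) : ((Fo J B w).card : ℤ) ≤ bb J B w := by
  obtain ⟨p, hp⟩ := hF
  obtain ⟨hpw, hpF⟩ := mem_Fo.1 hp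
  have hne : w.Nonempty := ⟨p, hpw⟩
  have h0 : B \ w ∉ unions J := by
    intro h0
    have := hpF ∅ (Finset.empty_subset _) (by rwa [Finset.union_empty])
    exact absurd this (Finset.notMem_empty _)
  have hsub : Fo J B w ⊆ w := Finset.filter_subset _ _
  have hle := Finset.card_le_card hsub
  rcases card_cases hne h3 with h | h | h
  · obtain ⟨x, rfl⟩ := Finset.card_eq_one.1 h
    rw [bb_one hB hw, Finset.union_empty, if_neg h0]
    rw [h] at hle
    have : ((Fo J B {x}).card : ℤ) ≤ 1 := by exact_mod_cast hle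
    linarith
  · obtain ⟨x, y, hxy, rfl⟩ := Finset.card_eq_two.1 h
    rw [bb_two hxy hB hw, Finset.union_empty, if_neg h0]
    rw [h] at hle
    have : ((Fo J B {x, y}).card : ℤ) ≤ 2 := by exact_mod_cast hle
    linarith
  · -- put `p` in front
    have he : (w.erase p).card = 2 := by
      rw [Finset.card_erase_of_mem hpw, h]
    obtain ⟨y, z, hyz, hyzw⟩ := Finset.card_eq_two.1 he
    have hw3 : w = {p, y, z} := by
      rw [← Finset.insert_erase hpw, hyzw]
    have hpy : p ≠ y := by
      rintro rfl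
      have : p ∈ w.erase p := by
        rw [hyzw]
        exact Finset.mem_insert_self _ _
      exact absurd rfl (Finset.mem_erase.1 this).1
    have hpz : p ≠ z := by
      rintro rfl
      have : p ∈ w.erase p := by
        rw [hyzw]
        exact Finset.mem_insert_of_mem (Finset.mem_singleton_self _)
      exact absurd rfl (Finset.mem_erase.1 this).1
    subst hw3
    rw [bb_three hpy hpz hyz hB hw, Finset.union_empty, if_neg h0]
    have sy : ({y} : Finset α) ⊆ {p, y, z} := by
      intro u hu
      rw [Finset.mem_singleton] at hu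
      rw [hu]
      simp
    have sz : ({z} : Finset α) ⊆ {p, y, z} := by
      intro u hu
      rw [Finset.mem_singleton] at hu
      rw [hu]
      simp
    have syz : ({y, z} : Finset α) ⊆ {p, y, z} := Finset.subset_insert _ _
    have sp : ({p} : Finset α) ⊆ {p, y, z} := by
      intro u hu
      rw [Finset.mem_singleton] at hu
      rw [hu]
      simp
    have spy : ({p, y} : Finset α) ⊆ {p, y, z} := by
      intro u hu
      rw [Finset.mem_insert, Finset.mem_singleton] at hu
      rcases hu with hu | hu <;> rw [hu] <;> simp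
    have spz : ({p, z} : Finset α) ⊆ {p, y, z} := by
      intro u hu
      rw [Finset.mem_insert, Finset.mem_singleton] at hu
      rcases hu with hu | hu <;> rw [hu] <;> simp
    have ny : (B \ {p, y, z}) ∪ {y} ∉ unions J := fun hm =>
      hpy (Finset.mem_singleton.1 (hpF _ sy hm))
    have nz : (B \ {p, y, z}) ∪ {z} ∉ unions J := fun hm =>
      hpz (Finset.mem_singleton.1 (hpF _ sz hm))
    have nyz : (B \ {p, y, z}) ∪ {y, z} ∉ unions J := by
      intro hm
      have := hpF _ syz hm
      rw [Finset.mem_insert, Finset.mem_singleton] at this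
      rcases this with h' | h'
      · exact hpy h'
      · exact hpz h'
    rw [if_neg ny, if_neg nz, if_neg nyz]
    by_cases hc : (Fo J B {p, y, z}).card ≤ 2
    · have hc' : ((Fo J B {p, y, z}).card : ℤ) ≤ 2 := by exact_mod_cast hc
      split_ifs <;> linarith
    · have hfull : Fo J B {p, y, z} = {p, y, z} :=
        Finset.eq_of_subset_of_card_le hsub (by omega)
      have hyF : y ∈ Fo J B {p, y, z} := by
        rw [hfull]
        simp
      have hzF : z ∈ Fo J B {p, y, z} := by
        rw [hfull]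
        simp
      have np : (B \ {p, y, z}) ∪ {p} ∉ unions J := fun hm =>
        hpy (Finset.mem_singleton.1 ((mem_Fo.1 hyF).2 _ sp hm)).symm
      have npy : (B \ {p, y, z}) ∪ {p, y} ∉ unions J := by
        intro hm
        have := (mem_Fo.1 hzF).2 _ spy hm
        rw [Finset.mem_insert, Finset.mem_singleton] at this
        rcases this with h' | h'
        · exact hpz h'.symm
        · exact hyz h'.symm
      have npz : (B \ {p, y, z}) ∪ {p, z} ∉ unions J := by
        intro hm
        have := (mem_Fo.1 hyF).2 _ spz hm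
        rw [Finset.mem_insert, Finset.mem_singleton] at this
        rcases this with h' | h'
        · exact hpy h'.symm
        · exact hyz h'
      rw [if_neg np, if_neg npy, if_neg npz]
      have hc' : ((Fo J B {p, y, z}).card : ℤ) ≤ 3 := by
        rw [h] at hle
        exact_mod_cast hle
      linarith

end

end Pool.Agent.H97.R3
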