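import Pool.Agent.H83.ELZ.Basic

/-!
# Generators with at most three elements (MP_75f39d): definitions and sums
-/

set_option autoImplicit false

namespace Pool.Agent.H97.R3

open Finset Pool.Agent.H97.GEN Pool.Agent.H83.ELZ

variable {α : Type*} [DecidableEq α]

/-- The value of the pair `(B, w)`. -/
def bb (J : Finset (Finset α)) (B w : Finset α) : ℤ :=
  ∑ T ∈ w.powerset, if (B \ w) ∪ T ∈ unions J then 2 * (T.card : ℤ) - w.card else 0

/-- The points of `v` in every trace at `(B, v)`. -/
def Fo (J : Finset (Finset α)) (B v : Finset α) : Finset α :=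
  v.filter fun p => ∀ T ∈ v.powerset, (B \ v) ∪ T ∈ unions J → p ∈ T

lemma mem_Fo {J : Finset (Finset α)} {B v : Finset α} {p : α} :
    p ∈ Fo J B v ↔ p ∈ v ∧ ∀ T, T ⊆ v → (B \ v) ∪ T ∈ unions J → p ∈ T := by
  unfold Fo
  rw [Finset.mem_filter]
  constructor
  · rintro ⟨h1, h2⟩
    exact ⟨h1, fun T hT => h2 T (Finset.mem_powerset.2 hT)⟩
  · rintro ⟨h1, h2⟩
    exact ⟨h1, fun T hT => h2 T (Finset.mem_powerset.1 hT)⟩

/-- The pairs grouped by the union. -/
lemma sum_group (J : Finset (Finset α)) {w : Finset α} (hw : w ∈ J) :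
    ∑ A ∈ unions J, ((w.card : ℤ) - 2 * (w \ A).card)
      = ∑ B ∈ (unions J).filter (fun B => w ⊆ B), bb J B w := by
  have h1 : ∑ A ∈ unions J, ((w.card : ℤ) - 2 * (w \ A).card)
      = ∑ B ∈ (unions J).filter (fun B => w ⊆ B),
        ∑ A ∈ (unions J).filter (fun A => A ∪ w = B), ((w.card : ℤ) - 2 * (w \ A).card) := by
    symm
    apply Finset.sum_fiberwise_of_maps_to
    intro A hA
    exact Finset.mem_filter.2 ⟨union_mem hA (self_mem hw), Finset.subset_union_right⟩
  rw [h1]
  apply Finset.sum_congr rfl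
  intro B hB
  obtain ⟨hBF, hwB⟩ := Finset.mem_filter.1 hB
  unfold bb
  rw [← Finset.sum_filter]
  apply Finset.sum_nbij' (fun A => A ∩ w) (fun T => (B \ w) ∪ T)
  · intro A hA
    obtain ⟨hAF, hAw⟩ := Finset.mem_filter.1 hA
    refine Finset.mem_filter.2 ⟨Finset.mem_powerset.2 Finset.inter_subset_right, ?_⟩
    have : (B \ w) ∪ (A ∩ w) = A := by
      ext z
      rw [← hAw]
      simp only [Finset.mem_union, Finset.mem_sdiff, Finset.mem_inter]
      tauto
    rw [this]
    exact hAF
  · intro T hT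
    obtain ⟨hTw, hTF⟩ := Finset.mem_filter.1 hT
    have hTw' := Finset.mem_powerset.1 hTw
    refine Finset.mem_filter.2 ⟨hTF, ?_⟩
    ext z
    simp only [Finset.mem_union, Finset.mem_sdiff]
    constructor
    · rintro ((⟨h, _⟩ | h) | h)
      · exact h
      · exact hwB (hTw' h)
      · exact hwB h
    · intro h
      by_cases hz : z ∈ w
      · exact Or.inr hz
      · exact Or.inl (Or.inl ⟨h, hz⟩)
  · intro A hA
    obtain ⟨hAF, hAw⟩ := Finset.mem_filter.1 hA
    show (B \ w) ∪ (A ∩ w) = A
    ext z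
    rw [← hAw]
    simp only [Finset.mem_union, Finset.mem_sdiff, Finset.mem_inter]
    tauto
  · intro T hT
    obtain ⟨hTw, hTF⟩ := Finset.mem_filter.1 hT
    have hTw' := Finset.mem_powerset.1 hTw
    show ((B \ w) ∪ T) ∩ w = T
    ext z
    simp only [Finset.mem_union, Finset.mem_sdiff, Finset.mem_inter]
    constructor
    · rintro ⟨⟨_, h⟩ | h, h'⟩
      · exact absurd h' h
      · exact h
    · intro h
      exact ⟨Or.inr h, hTw' h⟩
  · intro A hA
    have h2 : (w \ A).card + (A ∩ w).card = w.card := by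
      rw [Finset.inter_comm]
      exact Finset.card_sdiff_add_card_inter w A
    have h3 : ((w \ A).card : ℤ) + (A ∩ w).card = w.card := by exact_mod_cast h2
    linarith

/-- The sum over the points. -/
lemma sum_points (F : Finset (Finset α)) (w : Finset α) :
    ∑ A ∈ F, ((w.card : ℤ) - 2 * (w \ A).card) = ∑ z ∈ w, (2 * (fr F z : ℤ) - F.card) := by
  have h1 : ∀ A ∈ F, ((w.card : ℤ) - 2 * (w \ A).card)
      = ∑ z ∈ w, (if z ∈ A then (1 : ℤ) else -1) := by
    intro A _
    have e1 : ∑ z ∈ w, (if z ∈ A then (1 : ℤ) else -1)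
        = ∑ z ∈ w, ((1 : ℤ) - 2 * (if z ∉ A then 1 else 0)) := by
      apply Finset.sum_congr rfl
      intro z _
      by_cases hz : z ∈ A <;> simp [hz]
    rw [e1, Finset.sum_sub_distrib, ← Finset.mul_sum]
    have e2 : ∑ z ∈ w, (if z ∉ A then (1 : ℤ) else 0) = ((w \ A).card : ℤ) := by
      rw [← Finset.sum_filter, Finset.sum_const, nsmul_eq_mul, mul_one]
      congr 2
      ext z
      simp [Finset.mem_sdiff]
    rw [e2, Finset.sum_const, nsmul_eq_mul, mul_one]
  rw [Finset.sum_congr rfl h1, Finset.sum_comm]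
  apply Finset.sum_congr rfl
  intro z _
  have e3 : ∑ A ∈ F, (if z ∈ A then (1 : ℤ) else -1)
      = ∑ A ∈ F, (2 * (if z ∈ A then (1 : ℤ) else 0) - 1) := by
    apply Finset.sum_congr rfl
    intro A _
    by_cases hz : z ∈ A <;> simp [hz]
  rw [e3, Finset.sum_sub_distrib, ← Finset.mul_sum, ← Finset.sum_filter, Finset.sum_const,
    Finset.sum_const, nsmul_eq_mul, mul_one, nsmul_eq_mul, mul_one]
  rfl

/-- The sum over the powerset of a set with three elements. -/
lemma sum_pow3 {x y z : α} (hxy : x ≠ y) (hxz : x ≠ z) (hyz : y ≠ z) (f : Finset α → ℤ) :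
    ∑ T ∈ ({x, y, z} : Finset α).powerset, f T
      = f ∅ + f {x} + f {y} + f {z} + f {x, y} + f {x, z} + f {y, z} + f {x, y, z} := by
  have h1 : x ∉ ({y, z} : Finset α) := by
    rw [Finset.mem_insert, Finset.mem_singleton]
    push Not
    exact ⟨hxy, hxz⟩
  have h2 : y ∉ ({z} : Finset α) := by
    rw [Finset.mem_singleton]
    exact hyz
  have h3 : z ∉ (∅ : Finset α) := Finset.notMem_empty z
  rw [Finset.sum_powerset_insert h1, Finset.sum_powerset_insert h2, Finset.sum_powerset_insert h2,
    ← insert_empty_eq z, Finset.sum_powerset_insert h3, Finset.sum_powerset_insert h3,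
    Finset.sum_powerset_insert h3, Finset.sum_powerset_insert h3]
  simp only [Finset.powerset_empty, Finset.sum_singleton, insert_empty_eq]
  ring

/-- The sum over the powerset of a set with two elements. -/
lemma sum_pow2 {x y : α} (hxy : x ≠ y) (f : Finset α → ℤ) :
    ∑ T ∈ ({x, y} : Finset α).powerset, f T = f ∅ + f {x} + f {y} + f {x, y} := by
  have h2 : x ∉ ({y} : Finset α) := by
    rw [Finset.mem_singleton]
    exact hxy
  have h3 : y ∉ (∅ : Finset α) := Finset.notMem_empty y
  rw [Finset.sum_powerset_insert h2,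
    ← insert_empty_eq y, Finset.sum_powerset_insert h3, Finset.sum_powerset_insert h3]
  simp only [Finset.powerset_empty, Finset.sum_singleton, insert_empty_eq]
  ring

/-- The sum over the powerset of a set with one element. -/
lemma sum_pow1 (x : α) (f : Finset α → ℤ) :
    ∑ T ∈ ({x} : Finset α).powerset, f T = f ∅ + f {x} := by
  have h3 : x ∉ (∅ : Finset α) := Finset.notMem_empty x
  rw [← insert_empty_eq x, Finset.sum_powerset_insert h3]
  simp only [Finset.powerset_empty, Finset.sum_singleton]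

end Pool.Agent.H97.R3
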