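import Pool.Agent.H97.R3.Cases

/-!
# Generators with at most three elements (MP_75f39d): the sums at `B`
-/

set_option autoImplicit false

namespace Pool.Agent.H97.R3

open Finset Pool.Agent.H97.GEN Pool.Agent.H83.ELZ

variable {α : Type*} [DecidableEq α]

section

variable {J : Finset (Finset α)} {B w : Finset α}

lemma only_full {p r s : α} (hw : ∀ u ∈ w, u = p ∨ u = r ∨ u = s) (hp : p ∈ w) (hr : r ∈ w)
    (hs : s ∈ w) (n1 : (B \ w) ∪ {r} ∉ unions J) (n2 : (B \ w) ∪ {r, p} ∉ unions J)
    (n3 : (B \ w) ∪ {r, s} ∉ unions J) :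
    ∀ T, T ⊆ w → (B \ w) ∪ T ∈ unions J → r ∈ T → T = w := by
  intro T hT hm hrT
  by_cases hpT : p ∈ T
  · by_cases hsT : s ∈ T
    · apply Finset.Subset.antisymm hT
      intro u hu
      rcases hw u hu with h | h | h <;> rw [h] <;> assumption
    · exfalso
      have : T = {r, p} := by
        ext u
        rw [Finset.mem_insert, Finset.mem_singleton]
        constructor
        · intro hu
          rcases hw u (hT hu) with h | h | h
          · exact Or.inr h
          · exact Or.inl h
          · rw [h] at hu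
            exact absurd hu hsT
        · rintro (h | h) <;> rw [h] <;> assumption
      rw [this] at hm
      exact n2 hm
  · by_cases hsT : s ∈ T
    · exfalso
      have : T = {r, s} := by
        ext u
        rw [Finset.mem_insert, Finset.mem_singleton]
        constructor
        · intro hu
          rcases hw u (hT hu) with h | h | h
          · rw [h] at hu
            exact absurd hu hpT
          · exact Or.inl h
          · exact Or.inr h
        · rintro (h | h) <;> rw [h] <;> assumption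
      rw [this] at hm
      exact n3 hm
    · exfalso
      have : T = {r} := by
        ext u
        rw [Finset.mem_singleton]
        constructor
        · intro hu
          rcases hw u (hT hu) with h | h | h
          · rw [h] at hu
            exact absurd hu hpT
          · exact h
          · rw [h] at hu
            exact absurd hu hsT
        · intro h
          rw [h]
          exact hrT
      rw [this] at hm
      exact n1 hm

/-- The structure of a pair with a negative value. -/
lemma loser (hB : B ∈ unions J) (hw : w ⊆ B) (hne : w.Nonempty) (h3 : w.card ≤ 3)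
    (hneg : bb J B w < 0) :
    w.card = 3 ∧ B \ w ∈ unions J ∧ ∃ p ∈ w, (B \ w) ∪ {p} ∈ unions J ∧ ∃ r ∈ w, r ≠ p ∧
      ∀ T, T ⊆ w → (B \ w) ∪ T ∈ unions J → r ∈ T → T = w := by
  have h0 : B \ w ∈ unions J := by
    by_contra hcon
    have := bb_pos hB hw hne h3 hcon
    omega
  have hc : w.card = 3 := by
    by_contra hcon
    have := bb_small hB hw hne (by omega)
    omega
  refine ⟨hc, h0, ?_⟩
  obtain ⟨x, y, z, hxy, hxz, hyz, rfl⟩ := Finset.card_eq_three.1 hc
  rw [bb_three hxy hxz hyz hB hw, Finset.union_empty, if_pos h0] at hneg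
  have mx : x ∈ ({x, y, z} : Finset α) := by simp
  have my : y ∈ ({x, y, z} : Finset α) := by simp
  have mz : z ∈ ({x, y, z} : Finset α) := by simp
  have all : ∀ u ∈ ({x, y, z} : Finset α), u = x ∨ u = y ∨ u = z := by
    intro u hu
    rw [Finset.mem_insert, Finset.mem_insert, Finset.mem_singleton] at hu
    exact hu
  have c1 : (B \ {x, y, z}) ∪ {x} ∈ unions J → (B \ {x, y, z}) ∪ {y} ∈ unions J →
      (B \ {x, y, z}) ∪ {x, y} ∈ unions J := fun h h' => tr_union h h' rfl
  have c2 : (B \ {x, y, z}) ∪ {x} ∈ unions J → (B \ {x, y, z}) ∪ {z} ∈ unions J →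
      (B \ {x, y, z}) ∪ {x, z} ∈ unions J := fun h h' => tr_union h h' rfl
  have c3 : (B \ {x, y, z}) ∪ {y} ∈ unions J → (B \ {x, y, z}) ∪ {z} ∈ unions J →
      (B \ {x, y, z}) ∪ {y, z} ∈ unions J := fun h h' => tr_union h h' rfl
  by_cases hx : (B \ {x, y, z}) ∪ {x} ∈ unions J
  · by_cases hy : (B \ {x, y, z}) ∪ {y} ∈ unions J
    · by_cases hz : (B \ {x, y, z}) ∪ {z} ∈ unions J
      · exfalso
        rw [if_pos hx, if_pos hy, if_pos hz, if_pos (c1 hx hy), if_pos (c2 hx hz),
          if_pos (c3 hy hz)] at hneg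
        norm_num at hneg
      · -- x, y : r = z
        have n1 : (B \ {x, y, z}) ∪ {x, z} ∉ unions J := by
          intro hm
          rw [if_pos hx, if_pos hy, if_neg hz, if_pos (c1 hx hy), if_pos hm] at hneg
          split_ifs at hneg <;> norm_num at hneg
        have n2 : (B \ {x, y, z}) ∪ {y, z} ∉ unions J := by
          intro hm
          rw [if_pos hx, if_pos hy, if_neg hz, if_pos (c1 hx hy), if_pos hm] at hneg
          split_ifs at hneg <;> norm_num at hneg
        refine ⟨x, mx, hx, z, mz, hxz.symm, only_full (p := x) (s := y) ?_ mx mz my hz ?_ ?_⟩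
        · intro u hu
          rcases all u hu with h | h | h
          · exact Or.inl h
          · exact Or.inr (Or.inr h)
          · exact Or.inr (Or.inl h)
        · rw [Finset.pair_comm z x]
          exact n1
        · rw [Finset.pair_comm z y]
          exact n2
    · by_cases hz : (B \ {x, y, z}) ∪ {z} ∈ unions J
      · -- x, z : r = y
        have n1 : (B \ {x, y, z}) ∪ {x, y} ∉ unions J := by
          intro hm
          rw [if_pos hx, if_neg hy, if_pos hz, if_pos (c2 hx hz), if_pos hm] at hneg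
          split_ifs at hneg <;> norm_num at hneg
        have n2 : (B \ {x, y, z}) ∪ {y, z} ∉ unions J := by
          intro hm
          rw [if_pos hx, if_neg hy, if_pos hz, if_pos (c2 hx hz), if_pos hm] at hneg
          split_ifs at hneg <;> norm_num at hneg
        refine ⟨x, mx, hx, y, my, hxy.symm, only_full (p := x) (s := z) all mx my mz hy ?_ n2⟩
        rw [Finset.pair_comm y x]
        exact n1
      · -- x : r = y
        have n1 : (B \ {x, y, z}) ∪ {x, y} ∉ unions J := by
          intro hm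
          rw [if_pos hx, if_neg hy, if_neg hz, if_pos hm] at hneg
          split_ifs at hneg <;> norm_num at hneg
        have n2 : (B \ {x, y, z}) ∪ {y, z} ∉ unions J := by
          intro hm
          rw [if_pos hx, if_neg hy, if_neg hz, if_pos hm] at hneg
          split_ifs at hneg <;> norm_num at hneg
        refine ⟨x, mx, hx, y, my, hxy.symm, only_full (p := x) (s := z) all mx my mz hy ?_ n2⟩
        rw [Finset.pair_comm y x]
        exact n1
  · by_cases hy : (B \ {x, y, z}) ∪ {y} ∈ unions J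
    · -- y (and perhaps z): r = x
      have n1 : (B \ {x, y, z}) ∪ {x, y} ∉ unions J := by
        intro hm
        by_cases hz : (B \ {x, y, z}) ∪ {z} ∈ unions J
        · rw [if_neg hx, if_pos hy, if_pos hz, if_pos (c3 hy hz), if_pos hm] at hneg
          split_ifs at hneg <;> norm_num at hneg
        · rw [if_neg hx, if_pos hy, if_neg hz, if_pos hm] at hneg
          split_ifs at hneg <;> norm_num at hneg
      have n2 : (B \ {x, y, z}) ∪ {x, z} ∉ unions J := by
        intro hm
        by_cases hz : (B \ {x, y, z}) ∪ {z} ∈ unions J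
        · rw [if_neg hx, if_pos hy, if_pos hz, if_pos (c3 hy hz), if_pos hm] at hneg
          split_ifs at hneg <;> norm_num at hneg
        · rw [if_neg hx, if_pos hy, if_neg hz, if_pos hm] at hneg
          split_ifs at hneg <;> norm_num at hneg
      refine ⟨y, my, hy, x, mx, hxy, only_full (p := y) (s := z) ?_ my mx mz hx n1 n2⟩
      intro u hu
      rcases all u hu with h | h | h
      · exact Or.inr (Or.inl h)
      · exact Or.inl h
      · exact Or.inr (Or.inr h)
    · by_cases hz : (B \ {x, y, z}) ∪ {z} ∈ unions J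
      · -- z : r = x
        have n1 : (B \ {x, y, z}) ∪ {x, y} ∉ unions J := by
          intro hm
          rw [if_neg hx, if_neg hy, if_pos hz, if_pos hm] at hneg
          split_ifs at hneg <;> norm_num at hneg
        have n2 : (B \ {x, y, z}) ∪ {x, z} ∉ unions J := by
          intro hm
          rw [if_neg hx, if_neg hy, if_pos hz, if_pos hm] at hneg
          split_ifs at hneg <;> norm_num at hneg
        refine ⟨z, mz, hz, x, mx, hxz, only_full (p := z) (s := y) ?_ mz mx my hx n2 n1⟩
        intro u hu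
        rcases all u hu with h | h | h
        · exact Or.inr (Or.inl h)
        · exact Or.inr (Or.inr h)
        · exact Or.inl h
      · exfalso
        rw [if_neg hx, if_neg hy, if_neg hz] at hneg
        split_ifs at hneg <;> norm_num at hneg

end

/-- The hypotheses. -/
structure HR (J P : Finset (Finset α)) : Prop where
  irr : ∀ g ∈ J, g ∉ unions (J.erase g)
  PC : P ⊆ cov J
  comp : ∀ w ∈ cov J, ∀ i ∈ P, ∀ z, z ∈ w → z ∈ i → w ∈ P
  three : ∀ w ∈ P, w.card ≤ 3

section

variable {J P : Finset (Finset α)}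

lemma HR.PJ (h : HR J P) {w : Finset α} (hw : w ∈ P) : w ∈ J := (mem_cov.1 (h.PC hw)).1

lemma HR.ne (h : HR J P) {w : Finset α} (hw : w ∈ J) : w.Nonempty := by
  rw [Finset.nonempty_iff_ne_empty]
  rintro rfl
  exact h.irr _ hw (empty_mem _)

/-- The last point of a loser is private. -/
lemma HR.private_pt (h : HR J P) {B w : Finset α} (hwP : w ∈ P)
    (hc : w.card = 3) (h0 : B \ w ∈ unions J) {r : α} (hr : r ∈ w)
    (hT : ∀ T, T ⊆ w → (B \ w) ∪ T ∈ unions J → r ∈ T → T = w) :
    ∀ g ∈ J, g ⊆ B → r ∈ g → g = w := by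
  intro g hg hgB hrg
  by_contra hgw
  have he : (B \ w) ∪ g = (B \ w) ∪ (g ∩ w) := by
    ext u
    simp only [Finset.mem_union, Finset.mem_sdiff, Finset.mem_inter]
    constructor
    · rintro (hu | hu)
      · exact Or.inl hu
      · by_cases huw : u ∈ w
        · exact Or.inr ⟨hu, huw⟩
        · exact Or.inl ⟨hgB hu, huw⟩
    · rintro (hu | hu)
      · exact Or.inl hu
      · exact Or.inr hu.1
  have hm : (B \ w) ∪ (g ∩ w) ∈ unions J := by
    rw [← he]
    exact union_mem h0 (self_mem hg)
  have hgw' := hT _ Finset.inter_subset_right hm (Finset.mem_inter.2 ⟨hrg, hr⟩)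
  have hwg : w ⊆ g := by
    rw [← hgw']
    exact Finset.inter_subset_left
  have hcov : g ∈ cov J := by
    refine mem_cov.2 ⟨hg, fun q hq => ?_⟩
    by_cases hqw : q ∈ w
    · exact ⟨w, h.PJ hwP, fun hh => hgw hh.symm, hqw⟩
    · obtain ⟨g', hg', hsub, hqg'⟩ :=
        (mem_iff h0 q).1 (Finset.mem_sdiff.2 ⟨hgB hq, hqw⟩)
      refine ⟨g', hg', ?_, hqg'⟩
      rintro rfl
      exact (Finset.mem_sdiff.1 (hsub hrg)).2 hr
  have hgP := h.comp g hcov w hwP r hrg hr
  have := h.three g hgP
  exact hgw (Finset.eq_of_subset_of_card_le hwg (by omega)).symm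

/-- What a loser is charged to. -/
def Chg (J : Finset (Finset α)) (B w : Finset α) (t : Finset α × α) : Prop :=
  t.2 ∈ w ∧ B \ w ∈ unions J ∧ ∃ r ∈ w, ∀ g ∈ J, g ⊆ B → r ∈ g → g = w

lemma HR.charge (h : HR J P) {B w : Finset α} (hB : B ∈ unions J) (hwP : w ∈ P)
    (hwB : w ⊆ B) (hneg : bb J B w < 0) :
    ∃ v ∈ P, v ⊆ B ∧ ∃ p ∈ Fo J B v, Chg J B w (v, p) := by
  obtain ⟨hc, h0, p, hpw, hp, r, hr, hrp, hT⟩ :=
    loser hB hwB (h.ne (h.PJ hwP)) (h.three w hwP) hneg
  have hpriv := h.private_pt hwP hc h0 hr hT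
  obtain ⟨v, hv, hvsub, hpv⟩ :=
    (mem_iff hp p).1 (Finset.mem_union_right _ (Finset.mem_singleton_self p))
  have hrv : r ∉ v := by
    intro hrv
    rcases Finset.mem_union.1 (hvsub hrv) with h' | h'
    · exact (Finset.mem_sdiff.1 h').2 hr
    · exact hrp (Finset.mem_singleton.1 h')
  have hvw : w ≠ v := by
    rintro rfl
    exact hrv hr
  have hvB : v ⊆ B := by
    intro u hu
    rcases Finset.mem_union.1 (hvsub hu) with h' | h'
    · exact (Finset.mem_sdiff.1 h').1
    · rw [Finset.mem_singleton.1 h']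
      exact hwB hpw
  have hcov : v ∈ cov J := by
    refine mem_cov.2 ⟨hv, fun q hq => ?_⟩
    rcases Finset.mem_union.1 (hvsub hq) with h' | h'
    · obtain ⟨g', hg', hsub, hqg'⟩ := (mem_iff h0 q).1 h'
      refine ⟨g', hg', ?_, hqg'⟩
      rintro rfl
      exact (Finset.mem_sdiff.1 (hsub hpv)).2 hpw
    · rw [Finset.mem_singleton.1 h']
      exact ⟨w, h.PJ hwP, hvw, hpw⟩
  have hvP := h.comp v hcov w hwP p hpv hpw
  refine ⟨v, hvP, hvB, p, mem_Fo.2 ⟨hpv, ?_⟩, hpw, h0, r, hr, hpriv⟩
  intro T hTv hm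
  have hrB : r ∈ (B \ v) ∪ T := Finset.mem_union_left _ (Finset.mem_sdiff.2 ⟨hwB hr, hrv⟩)
  obtain ⟨g, hg, hsub, hrg⟩ := (mem_iff hm r).1 hrB
  have hgB : g ⊆ B := by
    intro u hu
    rcases Finset.mem_union.1 (hsub hu) with h' | h'
    · exact (Finset.mem_sdiff.1 h').1
    · exact hvB (hTv h')
  have hgw := hpriv g hg hgB hrg
  rw [hgw] at hsub
  rcases Finset.mem_union.1 (hsub hpw) with h' | h'
  · exact absurd hpv (Finset.mem_sdiff.1 h').2
  · exact h'

/-- The value at `B`. -/
def ss (J P : Finset (Finset α)) (B : Finset α) : ℤ :=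
  ∑ w ∈ P.filter (fun w => w ⊆ B), bb J B w

lemma HR.point_le (h : HR J P) {B w : Finset α} (hB : B ∈ unions J) (hwP : w ∈ P)
    (hwB : w ⊆ B) :
    ((Fo J B w).card : ℤ) - (if bb J B w < 0 then 1 else 0) ≤ bb J B w := by
  have h1 := bb_ge hB hwB (h.ne (h.PJ hwP)) (h.three w hwP)
  by_cases hF : (Fo J B w).Nonempty
  · have h2 := bb_forced hB hwB (h.three w hwP) hF
    split_ifs <;> linarith
  · rw [Finset.not_nonempty_iff_eq_empty] at hF
    rw [hF, Finset.card_empty]
    split_ifs with hn
    · push_cast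
      linarith
    · push_cast
      linarith

/-- **The sum at every `B` is not negative.** -/
theorem HR.ss_nonneg (h : HR J P) {B : Finset α} (hB : B ∈ unions J) : 0 ≤ ss J P B := by
  classical
  set Q := P.filter (fun w => w ⊆ B) with hQ
  set L := Q.filter (fun w => bb J B w < 0) with hL
  have hcount : L.card ≤ ∑ v ∈ Q, (Fo J B v).card := by
    rw [← Finset.card_sigma]
    apply Finset.card_le_card_of_forall_subsingleton
      (fun (w : Finset α) (t : (_ : Finset α) × α) => Chg J B w (t.1, t.2))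
    · intro w hw
      obtain ⟨hwQ, hneg⟩ := Finset.mem_filter.1 hw
      obtain ⟨hwP, hwB⟩ := Finset.mem_filter.1 hwQ
      obtain ⟨v, hvP, hvB, p, hp, hch⟩ := h.charge hB hwP hwB hneg
      exact ⟨⟨v, p⟩, Finset.mem_sigma.2 ⟨Finset.mem_filter.2 ⟨hvP, hvB⟩, hp⟩, hch⟩
    · rintro ⟨v, p⟩ _ w ⟨hw, hpw, h0, r, hr, hpr⟩ w' ⟨hw', hpw', h0', r', hr', hpr'⟩
      obtain ⟨hwQ, _⟩ := Finset.mem_filter.1 hw
      obtain ⟨hwP, hwB⟩ := Finset.mem_filter.1 hwQ
      obtain ⟨hwQ', _⟩ := Finset.mem_filter.1 hw'
      obtain ⟨hwP', hwB'⟩ := Finset.mem_filter.1 hwQ'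
      by_contra hne
      have hr'w : r' ∉ w := fun hh => hne (hpr' w (h.PJ hwP) hwB hh)
      obtain ⟨g, hg, hsub, hrg⟩ := (mem_iff h0 r').1 (Finset.mem_sdiff.2 ⟨hwB' hr', hr'w⟩)
      have hgw' := hpr' g hg (hsub.trans Finset.sdiff_subset) hrg
      rw [hgw'] at hsub
      exact (Finset.mem_sdiff.1 (hsub hpw')).2 hpw
  have h1 : ∑ w ∈ Q, (((Fo J B w).card : ℤ) - (if bb J B w < 0 then 1 else 0)) ≤ ss J P B := by
    apply Finset.sum_le_sum
    intro w hw
    obtain ⟨hwP, hwB⟩ := Finset.mem_filter.1 hw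
    exact h.point_le hB hwP hwB
  rw [Finset.sum_sub_distrib] at h1
  have h2 : ∑ w ∈ Q, (if bb J B w < 0 then (1 : ℤ) else 0) = L.card := by
    rw [← Finset.sum_filter, Finset.sum_const, nsmul_eq_mul, mul_one]
  have h3 : ((L.card : ℕ) : ℤ) ≤ ∑ v ∈ Q, ((Fo J B v).card : ℤ) := by exact_mod_cast hcount
  rw [h2] at h1
  linarith

/-- The sum of the biases. -/
lemma HR.total (h : HR J P) :
    ∑ w ∈ P, ∑ z ∈ w, (2 * (fr (unions J) z : ℤ) - (unions J).card)
      = ∑ B ∈ unions J, ss J P B := by
  have h1 : ∑ w ∈ P, ∑ z ∈ w, (2 * (fr (unions J) z : ℤ) - (unions J).card)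
      = ∑ w ∈ P, ∑ B ∈ (unions J).filter (fun B => w ⊆ B), bb J B w := by
    apply Finset.sum_congr rfl
    intro w hw
    rw [← sum_points, sum_group J (h.PJ hw)]
  rw [h1]
  unfold ss
  simp_rw [Finset.sum_filter]
  exact Finset.sum_comm

end

end Pool.Agent.H97.R3
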