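import Pool.Agent.H97.R3.Main

/-!
# Generators with at most three elements (MP_75f39d): the strict part
-/

set_option autoImplicit false

namespace Pool.Agent.H97.R3

open Finset Pool.Agent.H97.GEN Pool.Agent.H83.ELZ

variable {α : Type*} [DecidableEq α]

section

variable {J P : Finset (Finset α)}

/-- A generator has a point that is in no smaller generator. -/
lemma HR.own_pt (h : HR J P) {u : Finset α} (hu : u ∈ J) :
    ∃ f ∈ u, ∀ g ∈ J, g ⊆ u → f ∈ g → g = u := by
  classical
  by_contra hcon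
  push Not at hcon
  apply h.irr u hu
  rw [mem_unions]
  apply Finset.Subset.antisymm (supK_subset _ _)
  intro z hz
  obtain ⟨g, hg, hgu, hzg, hne⟩ := hcon z hz
  exact mem_sup_id.2 ⟨g, mem_K.2 ⟨Finset.mem_erase.2 ⟨hne, hg⟩, hgu⟩, hzg⟩

/-- All the biases and all the sums vanish. -/
lemma HR.all_zero (h : HR J P)
    (hle : ∀ z ∈ P.sup id, 2 * fr (unions J) z ≤ (unions J).card) :
    (∀ w ∈ P, ∀ z ∈ w, (2 * (fr (unions J) z : ℤ) - (unions J).card) = 0) ∧
      ∀ B ∈ unions J, ss J P B = 0 := by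
  have hb : ∀ w ∈ P, ∀ z ∈ w, (2 * (fr (unions J) z : ℤ) - (unions J).card) ≤ 0 := by
    intro w hw z hz
    have h1 := hle z (mem_sup_id.2 ⟨w, hw, hz⟩)
    have h2 : (2 * (fr (unions J) z : ℤ)) ≤ (unions J).card := by exact_mod_cast h1
    linarith
  have hbw : ∀ w ∈ P, ∑ z ∈ w, (2 * (fr (unions J) z : ℤ) - (unions J).card) ≤ 0 :=
    fun w hw => Finset.sum_nonpos (hb w hw)
  have h1 : ∑ w ∈ P, ∑ z ∈ w, (2 * (fr (unions J) z : ℤ) - (unions J).card) ≤ 0 :=
    Finset.sum_nonpos hbw
  have h2 : 0 ≤ ∑ B ∈ unions J, ss J P B := Finset.sum_nonneg fun B hB => h.ss_nonneg hB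
  have h3 := h.total
  have h4 : ∑ w ∈ P, ∑ z ∈ w, (2 * (fr (unions J) z : ℤ) - (unions J).card) = 0 := by
    linarith
  have h5 : ∑ B ∈ unions J, ss J P B = 0 := by linarith
  constructor
  · intro w hw z hz
    have h6 := (Finset.sum_eq_zero_iff_of_nonpos hbw).1 h4 w hw
    exact (Finset.sum_eq_zero_iff_of_nonpos (hb w hw)).1 h6 z hz
  · exact (Finset.sum_eq_zero_iff_of_nonneg fun B hB => h.ss_nonneg hB).1 h5

/-- Small members can be removed. -/
lemma HR.small (h : HR J P)
    (hz : ∀ w ∈ P, ∀ z ∈ w, (2 * (fr (unions J) z : ℤ) - (unions J).card) = 0)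
    {w B : Finset α} (hw : w ∈ P) (h2 : w.card ≤ 2) (hB : B ∈ unions J) (hwB : w ⊆ B) :
    B \ w ∈ unions J := by
  have hne := h.ne (h.PJ hw)
  have h3 : ∑ B ∈ (unions J).filter (fun B => w ⊆ B), bb J B w = 0 := by
    rw [← sum_group J (h.PJ hw), sum_points]
    exact Finset.sum_eq_zero fun z hz' => hz w hw z hz'
  have h4 : ∀ B ∈ (unions J).filter (fun B => w ⊆ B), 0 ≤ bb J B w := by
    intro B hB
    obtain ⟨hB1, hB2⟩ := Finset.mem_filter.1 hB
    exact bb_small hB1 hB2 hne h2
  have h5 := (Finset.sum_eq_zero_iff_of_nonneg h4).1 h3 B (Finset.mem_filter.2 ⟨hB, hwB⟩)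
  by_contra hcon
  have h6 := bb_pos hB hwB hne (by omega) hcon
  omega

/-- No member has one point. -/
lemma HR.no_one (h : HR J P)
    (hz : ∀ w ∈ P, ∀ z ∈ w, (2 * (fr (unions J) z : ℤ) - (unions J).card) = 0)
    {w : Finset α} (hw : w ∈ P) : w.card ≠ 1 := by
  intro hc
  obtain ⟨x, rfl⟩ := Finset.card_eq_one.1 hc
  have hxJ := h.PJ hw
  obtain ⟨u, hu, hux, hxu⟩ := (mem_cov.1 (h.PC hw)).2 x (Finset.mem_singleton_self x)
  have hsub : ({x} : Finset α) ⊆ u := Finset.singleton_subset_iff.2 hxu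
  obtain ⟨f, hf, hfo⟩ := h.own_pt hu
  have hfx : f ∉ ({x} : Finset α) := fun hh => hux (hfo {x} hxJ hsub hh).symm
  have h1 := h.small hz hw (by omega) (self_mem hu) hsub
  obtain ⟨g, hg, hgs, hfg⟩ := (mem_iff h1 f).1 (Finset.mem_sdiff.2 ⟨hf, hfx⟩)
  have hgu := hfo g hg (hgs.trans Finset.sdiff_subset) hfg
  rw [hgu] at hgs
  exact (Finset.mem_sdiff.1 (hgs hxu)).2 (Finset.mem_singleton_self x)

/-- No member has two points. -/
lemma HR.no_two (h : HR J P)
    (hz : ∀ w ∈ P, ∀ z ∈ w, (2 * (fr (unions J) z : ℤ) - (unions J).card) = 0)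
    {w : Finset α} (hw : w ∈ P) : w.card ≠ 2 := by
  intro hc
  have hwJ := h.PJ hw
  obtain ⟨x, hxw⟩ := h.ne hwJ
  obtain ⟨u, hu, huw, hxu⟩ := (mem_cov.1 (h.PC hw)).2 x hxw
  by_cases hsub : w ⊆ u
  · obtain ⟨f, hf, hfo⟩ := h.own_pt hu
    have hfw : f ∉ w := fun hh => huw (hfo w hwJ hsub hh).symm
    have h1 := h.small hz hw (by omega) (self_mem hu) hsub
    obtain ⟨g, hg, hgs, hfg⟩ := (mem_iff h1 f).1 (Finset.mem_sdiff.2 ⟨hf, hfw⟩)
    have hgu := hfo g hg (hgs.trans Finset.sdiff_subset) hfg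
    rw [hgu] at hgs
    exact (Finset.mem_sdiff.1 (hgs hxu)).2 hxw
  · -- `w` meets `u` in `x` only
    have hwux : ∀ z ∈ w, z ∈ u → z = x := by
      intro z hzw hzu
      by_contra hzx
      apply hsub
      have h2 : ({x, z} : Finset α) ⊆ w := by
        intro q hq
        rw [Finset.mem_insert, Finset.mem_singleton] at hq
        rcases hq with hq | hq <;> rw [hq] <;> assumption
      have h3 : ({x, z} : Finset α) = w := by
        apply Finset.eq_of_subset_of_card_le h2
        rw [hc, Finset.card_pair (Ne.symm hzx)]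
      rw [← h3]
      intro q hq
      rw [Finset.mem_insert, Finset.mem_singleton] at hq
      rcases hq with hq | hq <;> rw [hq] <;> assumption
    have hB : w ∪ u ∈ unions J := union_mem (self_mem hwJ) (self_mem hu)
    have h1 := h.small hz hw (by omega) hB Finset.subset_union_left
    have he : (w ∪ u) \ w = u.erase x := by
      ext z
      rw [Finset.mem_sdiff, Finset.mem_union, Finset.mem_erase]
      constructor
      · rintro ⟨h2 | h2, h3⟩
        · exact absurd h2 h3
        · refine ⟨?_, h2⟩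
          rintro rfl
          exact h3 hxw
      · rintro ⟨h2, h3⟩
        exact ⟨Or.inr h3, fun h4 => h2 (hwux z h4 h3)⟩
    rw [he] at h1
    have hucov : u ∈ cov J := by
      refine mem_cov.2 ⟨hu, fun q hq => ?_⟩
      by_cases hqx : q = x
      · rw [hqx]
        exact ⟨w, hwJ, huw.symm, hxw⟩
      · obtain ⟨g, hg, hgs, hqg⟩ := (mem_iff h1 q).1 (Finset.mem_erase.2 ⟨hqx, hq⟩)
        refine ⟨g, hg, ?_, hqg⟩
        rintro rfl
        exact (Finset.mem_erase.1 (hgs hxu)).1 rfl
    have huP := h.comp u hucov w hw x hxu hxw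
    have hu3 := h.three u huP
    have hu1 := h.no_one hz huP
    have hu0 := (h.ne hu).card_pos
    have hec : (u.erase x).card = u.card - 1 := Finset.card_erase_of_mem hxu
    obtain ⟨z, hzu⟩ : (u.erase x).Nonempty := by
      rw [← Finset.card_pos]
      omega
    obtain ⟨g, hg, hgs, hzg⟩ := (mem_iff h1 z).1 hzu
    have hgu : g ⊆ u := hgs.trans (Finset.erase_subset _ _)
    have hxg : x ∉ g := fun hh => (Finset.mem_erase.1 (hgs hh)).1 rfl
    have hgne : u ≠ g := by
      rintro rfl
      exact hxg hxu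
    have hgcov : g ∈ cov J := mem_cov.2 ⟨hg, fun q hq => ⟨u, hu, hgne, hgu hq⟩⟩
    have hgP := h.comp g hgcov u huP z hzg (Finset.mem_of_mem_erase hzu)
    have hg1 := h.no_one hz hgP
    have hg0 := (h.ne hg).card_pos
    have hge : g = u.erase x := Finset.eq_of_subset_of_card_le hgs (by omega)
    have hgc : g.card ≤ 2 := by
      rw [hge]
      omega
    have h2 := h.small hz hgP hgc (self_mem hu) hgu
    have he2 : u \ g = {x} := by
      rw [hge]
      ext q
      rw [Finset.mem_sdiff, Finset.mem_erase, Finset.mem_singleton]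
      constructor
      · rintro ⟨h3, h4⟩
        by_contra h5
        exact h4 ⟨h5, h3⟩
      · rintro rfl
        exact ⟨hxu, fun h5 => h5.1 rfl⟩
    rw [he2] at h2
    obtain ⟨g', hg', hgs', hxg'⟩ := (mem_iff h2 x).1 (Finset.mem_singleton_self x)
    have hg'x : g' = {x} :=
      Finset.Subset.antisymm hgs' (Finset.singleton_subset_iff.2 hxg')
    have hg'w : w ≠ g' := by
      rintro rfl
      rw [hg'x, Finset.card_singleton] at hc
      omega
    have hg'cov : g' ∈ cov J := by
      refine mem_cov.2 ⟨hg', fun q hq => ⟨w, hwJ, hg'w, ?_⟩⟩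
      rw [hg'x, Finset.mem_singleton] at hq
      rw [hq]
      exact hxw
    have hg'P := h.comp g' hg'cov w hw x hxg' hxw
    apply h.no_one hz hg'P
    rw [hg'x, Finset.card_singleton]

/-- **The strict theorem.** -/
theorem HR.exists_gt (h : HR J P) (hP : P.Nonempty) :
    ∃ z ∈ P.sup id, (unions J).card < 2 * fr (unions J) z := by
  classical
  by_contra hcon
  push Not at hcon
  obtain ⟨hz, hss⟩ := h.all_zero hcon
  have hthree : ∀ w ∈ P, w.card = 3 := by
    intro w hw
    have h1 := h.three w hw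
    have h2 := h.no_one hz hw
    have h3 := h.no_two hz hw
    have h4 := (h.ne (h.PJ hw)).card_pos
    omega
  obtain ⟨w, hw⟩ := hP
  have hwJ := h.PJ hw
  have hw3 := hthree w hw
  obtain ⟨x, hxw⟩ := h.ne hwJ
  obtain ⟨u, hu, huw, hxu⟩ := (mem_cov.1 (h.PC hw)).2 x hxw
  have hB : w ∪ u ∈ unions J := union_mem (self_mem hwJ) (self_mem hu)
  -- `u - w` is not in the family
  have hnot : (w ∪ u) \ w ∉ unions J := by
    intro h1
    have hucov : u ∈ cov J := by
      refine mem_cov.2 ⟨hu, fun q hq => ?_⟩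
      by_cases hqw : q ∈ w
      · exact ⟨w, hwJ, huw.symm, hqw⟩
      · obtain ⟨g, hg, hgs, hqg⟩ := (mem_iff h1 q).1
          (Finset.mem_sdiff.2 ⟨Finset.mem_union_right _ hq, hqw⟩)
        refine ⟨g, hg, ?_, hqg⟩
        rintro rfl
        exact (Finset.mem_sdiff.1 (hgs hxu)).2 hxw
    have huP := h.comp u hucov w hw x hxu hxw
    have hu3 := hthree u huP
    obtain ⟨z, hzu, hzw⟩ : ∃ z ∈ u, z ∉ w := by
      by_contra hcon
      push Not at hcon
      exact huw (Finset.eq_of_subset_of_card_le hcon (by omega))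
    obtain ⟨g, hg, hgs, hzg⟩ := (mem_iff h1 z).1
      (Finset.mem_sdiff.2 ⟨Finset.mem_union_right _ hzu, hzw⟩)
    have hgu : g ⊆ u := by
      intro q hq
      obtain ⟨h2, h3⟩ := Finset.mem_sdiff.1 (hgs hq)
      exact (Finset.mem_union.1 h2).resolve_left h3
    have hxg : x ∉ g := fun hh => (Finset.mem_sdiff.1 (hgs hh)).2 hxw
    have hgne : u ≠ g := by
      rintro rfl
      exact hxg hxu
    have hgcov : g ∈ cov J := mem_cov.2 ⟨hg, fun q hq => ⟨u, hu, hgne, hgu hq⟩⟩
    have hgP := h.comp g hgcov u huP z hzg hzu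
    have hg3 := hthree g hgP
    exact hgne (Finset.eq_of_subset_of_card_le hgu (by omega)).symm
  have hpos : 0 < bb J (w ∪ u) w :=
    bb_pos hB Finset.subset_union_left (h.ne hwJ) (by omega) hnot
  -- no loser
  have hnl : ∀ v ∈ P, v ⊆ w ∪ u → 0 ≤ bb J (w ∪ u) v := by
    intro v hv hvB
    by_contra hneg
    push Not at hneg
    obtain ⟨hv3, h0, -⟩ := loser hB hvB (h.ne (h.PJ hv)) (h.three v hv) hneg
    by_cases hucov : u ∈ cov J
    · have huP := h.comp u hucov w hw x hxu hxw
      have hu3 := hthree u huP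
      have hcard : (w ∪ u).card ≤ 5 := by
        have h1 := Finset.card_union_add_card_inter w u
        have h2 : 0 < (w ∩ u).card := Finset.card_pos.2 ⟨x, Finset.mem_inter.2 ⟨hxw, hxu⟩⟩
        omega
      have hsd : ((w ∪ u) \ v).card ≤ 2 := by
        have h1 := Finset.card_sdiff_add_card_eq_card hvB
        omega
      obtain ⟨z, hzB⟩ : ((w ∪ u) \ v).Nonempty := by
        rw [Finset.nonempty_iff_ne_empty]
        intro he
        rw [Finset.sdiff_eq_empty_iff_subset] at he
        have e1 : w = v :=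
          Finset.eq_of_subset_of_card_le (Finset.subset_union_left.trans he) (by omega)
        have e2 : u = v :=
          Finset.eq_of_subset_of_card_le (Finset.subset_union_right.trans he) (by omega)
        exact huw (e2.trans e1.symm)
      obtain ⟨g, hg, hgs, hzg⟩ := (mem_iff h0 z).1 hzB
      have hg2 : g.card ≤ 2 := (Finset.card_le_card hgs).trans hsd
      have hgw : w ≠ g := by
        rintro rfl
        omega
      have hgu : u ≠ g := by
        rintro rfl
        omega
      have hgcov : g ∈ cov J := by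
        refine mem_cov.2 ⟨hg, fun q hq => ?_⟩
        rcases Finset.mem_union.1 (Finset.mem_sdiff.1 (hgs hq)).1 with h' | h'
        · exact ⟨w, hwJ, hgw, h'⟩
        · exact ⟨u, hu, hgu, h'⟩
      have hgP : g ∈ P := by
        rcases Finset.mem_union.1 (Finset.mem_sdiff.1 hzB).1 with h' | h'
        · exact h.comp g hgcov w hw z hzg h'
        · exact h.comp g hgcov u huP z hzg h'
      have := hthree g hgP
      omega
    · -- a private point of `u`
      obtain ⟨f, hfu, hfo⟩ : ∃ f ∈ u, ∀ g ∈ J, f ∈ g → g = u := by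
        by_contra hcon
        push Not at hcon
        apply hucov
        refine mem_cov.2 ⟨hu, fun q hq => ?_⟩
        obtain ⟨g, hg, hqg, hne⟩ := hcon q hq
        exact ⟨g, hg, hne, hqg⟩
      have hvu : v ≠ u := by
        rintro rfl
        exact hucov (h.PC hv)
      have hfv : f ∉ v := fun hh => hvu (hfo v (h.PJ hv) hh)
      obtain ⟨g, hg, hgs, hfg⟩ := (mem_iff h0 f).1
        (Finset.mem_sdiff.2 ⟨Finset.mem_union_right _ hfu, hfv⟩)
      have hgu := hfo g hg hfg
      rw [hgu] at hgs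
      have hvw : v ⊆ w := by
        intro q hq
        rcases Finset.mem_union.1 (hvB hq) with h' | h'
        · exact h'
        · exact absurd hq (Finset.mem_sdiff.1 (hgs h')).2
      have hvw' : v = w := Finset.eq_of_subset_of_card_le hvw (by omega)
      have h2 := (Finset.mem_sdiff.1 (hgs hxu)).2
      rw [hvw'] at h2
      exact h2 hxw
  have h1 := hss _ hB
  unfold ss at h1
  have h2 := (Finset.sum_eq_zero_iff_of_nonneg (fun v hv => by
    obtain ⟨hv1, hv2⟩ := Finset.mem_filter.1 hv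
    exact hnl v hv1 hv2)).1 h1 w (Finset.mem_filter.2 ⟨hw, Finset.subset_union_left⟩)
  omega

end

end Pool.Agent.H97.R3
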